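import Pool.Agent.Helper70.MM.Goals5

/-!
Project MM, packet MM5-MID: the middle region
-/

open MeasureTheory Set Metric
open scoped ENNReal RealInnerProductSpace Topology
open Pool.Agent.Results.MP_91ee6f_gt
open Pool.Agent.Helper70.MM

namespace Pool.Agent.Helper17.MM

lemma exp_neg_lip {a b : ℝ} (ha : 0 ≤ a) (hb : 0 ≤ b) :
    |Real.exp (-a) - Real.exp (-b)| ≤ |a - b| := by
  have key : ∀ x y : ℝ, 0 ≤ x → x ≤ y → Real.exp (-x) - Real.exp (-y) ≤ y - x := by
    intro x y hx hxy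
    have h1 : Real.exp (-y) = Real.exp (-x) * Real.exp (-(y - x)) := by
      rw [← Real.exp_add]; congr 1; ring
    have h2 : 1 - (y - x) ≤ Real.exp (-(y - x)) := by
      have := Real.add_one_le_exp (-(y - x))
      linarith
    have h3 : Real.exp (-x) ≤ 1 := Real.exp_le_one_iff.2 (by linarith)
    have h4 : 0 < Real.exp (-x) := Real.exp_pos _
    rw [h1]
    nlinarith
  rcases le_total a b with h | h
  · have h1 := key a b ha h
    have h2 : Real.exp (-b) ≤ Real.exp (-a) := Real.exp_le_exp.2 (by linarith)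
    rw [abs_of_nonneg (by linarith), abs_of_nonpos (by linarith)]
    linarith
  · have h1 := key b a hb h
    have h2 : Real.exp (-a) ≤ Real.exp (-b) := Real.exp_le_exp.2 (by linarith)
    rw [abs_of_nonpos (by linarith), abs_of_nonneg (by linarith)]
    linarith

lemma PP_eq {n : ℕ} (e : En n) (R r : ℝ) :
    PP e R r = ∫ y, Real.exp (-dist (r • e) (R • y)) ∂(sphUnif n 1) := by
  have h1 : sphUnif n R = (sphUnif n 1).map (fun x => R • x) := by
    rw [(fSPH2 n 1).2 R, mul_one]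
  unfold PP potential
  rw [h1, integral_map]
  · exact (by fun_prop : Continuous fun x : En n => R • x).measurable.aemeasurable
  · exact (by fun_prop : Continuous fun y : En n => Real.exp (-dist (r • e) y)).aestronglyMeasurable

lemma PP_lip {n : ℕ} (hn : 1 ≤ n) (e : En n) (he : ‖e‖ = 1) (R R' r r' : ℝ) :
    |PP e R r - PP e R' r'| ≤ |R - R'| + |r - r'| := by
  haveI : IsProbabilityMeasure (sphUnif n 1) := (fSPH1 n hn 1).1
  have hi : ∀ a b : ℝ, Integrable (fun y : En n => Real.exp (-dist (b • e) (a • y)))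
      (sphUnif n 1) := by
    intro a b
    refine Integrable.of_bound (C := 1)
      (by fun_prop : Continuous fun y : En n => Real.exp (-dist (b • e) (a • y))).aestronglyMeasurable
      (Filter.Eventually.of_forall fun y => ?_)
    rw [Real.norm_eq_abs, abs_of_pos (Real.exp_pos _)]
    exact Real.exp_le_one_iff.2 (by linarith [dist_nonneg (x := b • e) (y := a • y)])
  rw [PP_eq, PP_eq, ← integral_sub (hi R r) (hi R' r'), ← Real.norm_eq_abs]
  refine (norm_integral_le_of_norm_le_const (C := |R - R'| + |r - r'|) ?_).trans ?_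
  · filter_upwards [(fSPH1 n hn 1).2.1 zero_le_one] with y hy
    rw [Real.norm_eq_abs]
    refine (exp_neg_lip dist_nonneg dist_nonneg).trans ?_
    have h1 : dist (r • e) (R • y) = ‖r • e - R • y‖ := dist_eq_norm _ _
    have h2 : dist (r' • e) (R' • y) = ‖r' • e - R' • y‖ := dist_eq_norm _ _
    rw [h1, h2]
    refine (abs_norm_sub_norm_le _ _).trans ?_
    have h3 : r • e - R • y - (r' • e - R' • y) = (r - r') • e - (R - R') • y := by
      simp only [sub_smul]
      abel
    rw [h3]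
    refine (norm_sub_le _ _).trans ?_
    rw [norm_smul, norm_smul, he, hy, Real.norm_eq_abs, Real.norm_eq_abs]
    linarith
  · simp

lemma PP_cont {n : ℕ} (hn : 1 ≤ n) (e : En n) (he : ‖e‖ = 1) (R : ℝ) : Continuous (PP e R) := by
  have : LipschitzWith 1 (PP e R) := by
    refine LipschitzWith.of_dist_le_mul fun r r' => ?_
    have h := PP_lip hn e he R R r r'
    rw [sub_self, abs_zero, zero_add] at h
    simpa [Real.dist_eq] using h
  exact this.continuous

theorem mid : PDER → OUTER → NEARB → MID := by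
  intro hP hO hN n hn Rc hRc heq δ h hδ hh
  have hn1 : 1 ≤ n := by omega
  have hn3 : (3 : ℝ) ≤ n := by exact_mod_cast hn
  have hRc0 : 0 < Rc := by linarith
  obtain ⟨e0, he0⟩ : ∃ e : En n, ‖e‖ = 1 := by
    refine ⟨EuclideanSpace.single ⟨0, by omega⟩ (1 : ℝ), ?_⟩
    simp
  have hM := fMINP n hn1 Rc hRc0
  have h0 : PP e0 Rc 0 = Real.exp (-Rc) := by
    unfold PP
    rw [zero_smul]
    exact hM.1
  -- near the centre
  obtain ⟨K, hK⟩ : ∃ K, K = |Rc ^ 2 * om 3 (Rc / 2)| + 1 := ⟨_, rfl⟩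
  obtain ⟨A, hA⟩ : ∃ A, A = Real.exp (-Rc) * (Rc - ((n : ℝ) - 1)) / (n * Rc) := ⟨_, rfl⟩
  have hK0 : 0 < K := by rw [hK]; positivity
  have hA0 : 0 < A := by
    rw [hA]
    have : 0 < Rc - ((n : ℝ) - 1) := by linarith
    positivity
  obtain ⟨r0, hr0⟩ : ∃ r0, r0 = min (Rc / 2) (min 1 (A / (2 * K))) := ⟨_, rfl⟩
  have hr0pos : 0 < r0 := by
    rw [hr0]
    refine lt_min (by linarith) (lt_min one_pos (by positivity))
  have hr01 : r0 ≤ Rc / 2 := by rw [hr0]; exact min_le_left _ _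
  have hr02 : r0 ≤ 1 := by
    rw [hr0]; exact (min_le_right _ _).trans (min_le_left _ _)
  have hr03 : r0 ≤ A / (2 * K) := by
    rw [hr0]; exact (min_le_right _ _).trans (min_le_right _ _)
  have hpd : ∀ r : ℝ, 0 < r → r ≤ r0 → 0 < PD e0 Rc r := by
    intro r hr hr'
    have h1 := (hO n hn e0 he0 Rc hRc0).2 r hr (by linarith)
    rw [← hA] at h1
    have h2 : Rc ^ 2 * om 3 (Rc / 2) ≤ K := by
      rw [hK]
      have := le_abs_self (Rc ^ 2 * om 3 (Rc / 2))
      linarith
    have h3 : r ^ 2 ≤ A / (2 * K) := by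
      have : r ^ 2 ≤ r := by nlinarith
      linarith
    have h4 : Rc ^ 2 * om 3 (Rc / 2) * r ^ 2 ≤ A / 2 := by
      calc Rc ^ 2 * om 3 (Rc / 2) * r ^ 2 ≤ K * r ^ 2 := by
            exact mul_le_mul_of_nonneg_right h2 (by positivity)
        _ ≤ K * (A / (2 * K)) := mul_le_mul_of_nonneg_left h3 hK0.le
        _ = A / 2 := by field_simp
    have h5 : 0 < PD e0 Rc r / r := by linarith
    have h6 := mul_pos h5 hr
    rwa [div_mul_cancel₀ _ hr.ne'] at h6
  have hc := PP_cont hn1 e0 he0 Rc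
  have hsm : StrictMonoOn (PP e0 Rc) (Icc 0 r0) := by
    refine strictMonoOn_of_deriv_pos (convex_Icc 0 r0) hc.continuousOn ?_
    intro x hx
    rw [interior_Icc] at hx
    have h1 := ((hP n (by omega) e0 he0 Rc hRc0.le).1 x hx.1).1
    rw [h1.deriv]
    exact hpd x hx.1 hx.2.le
  -- near the sphere
  obtain ⟨C, hC, hN1⟩ := hN n hn
  obtain ⟨h1, hh1⟩ : ∃ h1, h1 = min h (min (Rc / 2) (min 1
    (Real.exp (-(2 * Rc)) * Rc / (4 * C)))) := ⟨_, rfl⟩
  have hq : 0 < Real.exp (-(2 * Rc)) * Rc / (4 * C) := by positivity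
  have a1 : 0 < h1 := by
    rw [hh1]
    exact lt_min hh (lt_min (by linarith) (lt_min one_pos hq))
  have a2 : h1 ≤ h := by rw [hh1]; exact min_le_left _ _
  have a3 : h1 ≤ Rc / 2 := by
    rw [hh1]; exact (min_le_right _ _).trans (min_le_left _ _)
  have a4 : h1 ≤ 1 := by
    rw [hh1]; exact (min_le_right _ _).trans ((min_le_right _ _).trans (min_le_left _ _))
  have a5 : h1 ≤ Real.exp (-(2 * Rc)) * Rc / (4 * C) := by
    rw [hh1]; exact (min_le_right _ _).trans ((min_le_right _ _).trans (min_le_right _ _))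
  obtain ⟨d1, hd1⟩ : ∃ d1, d1 = min δ r0 := ⟨_, rfl⟩
  have b1 : 0 < d1 := by rw [hd1]; exact lt_min hδ hr0pos
  have b2 : d1 ≤ δ := by rw [hd1]; exact min_le_left _ _
  have b3 : d1 ≤ r0 := by rw [hd1]; exact min_le_right _ _
  have c1 : Real.exp (-Rc) < PP e0 Rc d1 := by
    rw [← h0]
    exact hsm ⟨le_rfl, hr0pos.le⟩ ⟨b1.le, b3⟩ b1
  have c2 : Real.exp (-Rc) < PP e0 Rc (Rc - h1) := by
    have h2 := (hN1 e0 he0 Rc (Rc - h1) hRc0 (by linarith) (by linarith) (by linarith)).1
    rw [heq] at h2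
    have e1 : Rc - (Rc - h1) = h1 := by ring
    rw [e1] at h2
    have h3 : C / Rc * h1 ^ 2 ≤ Real.exp (-(2 * Rc)) * h1 / 4 := by
      have : C / Rc * h1 ≤ Real.exp (-(2 * Rc)) / 4 := by
        calc C / Rc * h1 ≤ C / Rc * (Real.exp (-(2 * Rc)) * Rc / (4 * C)) :=
              mul_le_mul_of_nonneg_left a5 (by positivity)
          _ = Real.exp (-(2 * Rc)) / 4 := by field_simp
      nlinarith
    have h4 : 0 < Real.exp (-(2 * Rc)) * h1 := by positivity
    linarith
  obtain ⟨g, hg⟩ : ∃ g, g = min (PP e0 Rc d1) (PP e0 Rc (Rc - h1)) - Real.exp (-Rc) := ⟨_, rfl⟩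
  have hg0 : 0 < g := by
    rw [hg]
    have := lt_min c1 c2
    linarith
  refine ⟨g / 2, by linarith, g / 4, by linarith, ?_⟩
  intro e R r he hR1 hR2 hr1 hr2
  -- change of the unit vector
  have hsw : ∀ t : ℝ, PP e Rc t = PP e0 Rc t := by
    intro t
    unfold PP
    exact hM.2.2.1 _ _ (by rw [norm_smul, norm_smul, he, he0])
  obtain ⟨r', hr'⟩ : ∃ r', r' = min r (Rc - h1) := ⟨_, rfl⟩
  have d2 : d1 ≤ r' := by
    rw [hr']
    refine le_min (by linarith) (by linarith)
  have d3 : r' ≤ Rc - h1 := by rw [hr']; exact min_le_right _ _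
  have d4 : |r - r'| ≤ R - Rc := by
    rcases le_total r (Rc - h1) with h2 | h2
    · rw [hr', min_eq_left h2, sub_self, abs_zero]
      linarith
    · rw [hr', min_eq_right h2, abs_of_nonneg (by linarith)]
      linarith
  have d5 : Real.exp (-Rc) + g ≤ PP e0 Rc r' := by
    have hqc := fQCALL n hn1 Rc hRc0 0 e0 he0 d1 r' (Rc - h1) b1.le d2 d3 (by linarith)
    have hU : ∀ t : ℝ, U (sphUnif n Rc) 0 (t • e0) = PP e0 Rc t := by
      intro t
      unfold U PP potential
      simp only [om_zero]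
    simp only [hU] at hqc
    rw [hg]
    linarith
  have d6 := PP_lip hn1 e he R Rc r r'
  rw [hsw r'] at d6
  have d7 := (abs_le.1 d6).1
  have d8 : |R - Rc| = R - Rc := abs_of_nonneg (by linarith)
  have d9 : Real.exp (-R) ≤ Real.exp (-Rc) := Real.exp_le_exp.2 (by linarith)
  rw [d8] at d7
  linarith

end Pool.Agent.Helper17.MM
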